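import Pool.Agent.Helper51.REC.Goals1

/-!
# Project REC (MP_fc6b1e_nt), packet REC-H_RNK: the rank of the `S`-units
-/

set_option autoImplicit false

namespace Pool.Agent.Helper83.REC

open NumberField Module IsDedekindDomain nonZeroDivisors Pool.Agent.Helper51.RP
  Pool.Agent.Helper51.REC

section

variable {F : Type} [Field F] [NumberField F]

theorem ordv_mul (v : HeightOneSpectrum (𝓞 F)) (x y : Fˣ) :
    ordv v ((x * y : Fˣ) : F) = ordv v (x : F) + ordv v (y : F) := by
  unfold ordv
  rw [Units.val_mul, map_mul, WithZero.log_mul, neg_add]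
  · rw [Ne, Valuation.zero_iff]
    exact x.ne_zero
  · rw [Ne, Valuation.zero_iff]
    exact y.ne_zero

theorem ordv_one (v : HeightOneSpectrum (𝓞 F)) : ordv v (1 : F) = 0 := by
  unfold ordv
  rw [map_one, WithZero.log_one, neg_zero]

theorem val_eq_one_of_ordv (v : HeightOneSpectrum (𝓞 F)) (x : Fˣ) (h : ordv v (x : F) = 0) :
    v.valuation F (x : F) = 1 := by
  unfold ordv at h
  have h1 : WithZero.log (v.valuation F (x : F)) = 0 := by omega
  have h2 : v.valuation F (x : F) ≠ 0 := by
    rw [Ne, Valuation.zero_iff]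
    exact x.ne_zero
  rw [← WithZero.exp_log h2, h1, WithZero.exp_zero]

/-- An element whose divisor is a power of `w`. -/
theorem exists_gen (w : HeightOneSpectrum (𝓞 F)) :
    ∃ x : Fˣ, ordv w (x : F) ≠ 0 ∧ ∀ v : HeightOneSpectrum (𝓞 F), v ≠ w →
      v.valuation F (x : F) = 1 := by
  classical
  set h := Fintype.card (ClassGroup (𝓞 F)) with hh
  have hpos : 0 < h := Fintype.card_pos
  have hw0 : w.asIdeal ∈ (Ideal (𝓞 F))⁰ := mem_nonZeroDivisors_of_ne_zero w.ne_bot
  have hw1 : w.asIdeal ^ h ∈ (Ideal (𝓞 F))⁰ := pow_mem hw0 h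
  have h1 : (ClassGroup.mk0 ⟨w.asIdeal ^ h, hw1⟩ : ClassGroup (𝓞 F)) = 1 := by
    have : (⟨w.asIdeal ^ h, hw1⟩ : (Ideal (𝓞 F))⁰) = ⟨w.asIdeal, hw0⟩ ^ h := rfl
    rw [this, map_pow, hh, pow_card_eq_one]
  obtain ⟨r, hr⟩ := (ClassGroup.mk0_eq_one_iff hw1).1 h1
  rw [Ideal.submodule_span_eq] at hr
  have hr0 : r ≠ 0 := by
    rintro rfl
    rw [Ideal.span_singleton_zero] at hr
    exact (mem_nonZeroDivisors_iff_ne_zero.1 hw1) hr
  have hrK : (algebraMap (𝓞 F) F r) ≠ 0 := by
    rw [Ne, FaithfulSMul.algebraMap_eq_zero_iff]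
    exact hr0
  have hmem : r ∈ w.asIdeal ^ h := by
    rw [hr]
    exact Ideal.mem_span_singleton_self r
  refine ⟨Units.mk0 _ hrK, ?_, fun v hv ↦ ?_⟩
  · intro h0
    have h2 := val_eq_one_of_ordv w _ h0
    rw [Units.val_mk0, w.valuation_eq_one_iff_notMem] at h2
    exact h2 (Ideal.pow_le_self hpos.ne' hmem)
  · rw [Units.val_mk0, v.valuation_eq_one_iff_notMem]
    intro h3
    have h4 : w.asIdeal ^ h ≤ v.asIdeal := by
      rw [hr, Ideal.span_singleton_le_iff_mem]
      exact h3
    have h5 : w.asIdeal ≤ v.asIdeal := v.isPrime.le_of_pow_le h4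
    have h6 : w.asIdeal = v.asIdeal := w.isMaximal.eq_of_le v.isPrime.ne_top h5
    exact hv (HeightOneSpectrum.ext h6.symm)

variable (S : Set (HeightOneSpectrum (𝓞 F)))

/-- The vector of the valuations at the primes of `S`. -/
noncomputable def phi : Additive (S.unit F) →+ (S → ℤ) where
  toFun x := fun w ↦ ordv w.1 ((x.toMul : Fˣ) : F)
  map_zero' := by
    funext w
    exact ordv_one w.1
  map_add' x y := by
    funext w
    exact ordv_mul w.1 _ _

/-- The units as `S`-units. -/
noncomputable def psi : (𝓞 F)ˣ →* S.unit F where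
  toFun u := ⟨Units.map (algebraMap (𝓞 F) F : (𝓞 F) →* F) u, fun v _ ↦ by
    have h1 : v.valuation F (algebraMap (𝓞 F) F (u : 𝓞 F)) = 1 := by
      rw [v.valuation_eq_one_iff_notMem]
      intro h
      exact v.isPrime.ne_top (Ideal.eq_top_of_isUnit_mem _ h u.isUnit)
    exact h1⟩
  map_one' := by
    apply Subtype.ext
    exact map_one _
  map_mul' x y := by
    apply Subtype.ext
    exact map_mul _ _ _

theorem psi_inj : Function.Injective (psi S) := by
  intro x y h
  have h1 := congrArg (fun z : S.unit F ↦ ((z : Fˣ) : F)) h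
  have h2 : algebraMap (𝓞 F) F (x : 𝓞 F) = algebraMap (𝓞 F) F (y : 𝓞 F) := h1
  exact Units.ext (FaithfulSMul.algebraMap_injective (𝓞 F) F h2)

theorem ker_phi : LinearMap.ker (phi S).toIntLinearMap =
    LinearMap.range (MonoidHom.toAdditive (psi S)).toIntLinearMap := by
  ext x
  rw [LinearMap.mem_ker, LinearMap.mem_range]
  constructor
  · intro h
    have h1 : ∀ v : HeightOneSpectrum (𝓞 F), v.valuation F (((x.toMul : S.unit F) : Fˣ) : F) = 1 := by
      intro v
      by_cases hv : v ∈ S
      · exact val_eq_one_of_ordv v _ (congrFun h ⟨v, hv⟩)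
      · exact (x.toMul : S.unit F).2 v hv
    obtain ⟨r, hr⟩ := HeightOneSpectrum.mem_integers_of_valuation_le_one F
      (((x.toMul : S.unit F) : Fˣ) : F) (fun v ↦ (h1 v).le)
    obtain ⟨s, hs⟩ := HeightOneSpectrum.mem_integers_of_valuation_le_one F
      ((((x.toMul : S.unit F) : Fˣ)⁻¹ : Fˣ) : F) (fun v ↦ by
        rw [Units.val_inv_eq_inv_val, map_inv₀, h1 v, inv_one])
    have hrs : r * s = 1 := by
      apply FaithfulSMul.algebraMap_injective (𝓞 F) F
      rw [map_mul, map_one]
      have : (algebraMap (𝓞 F) F r) * (algebraMap (𝓞 F) F s) =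
          (((x.toMul : S.unit F) : Fˣ) : F) * ((((x.toMul : S.unit F) : Fˣ)⁻¹ : Fˣ) : F) := by
        rw [← hr, ← hs]
      rw [this, Units.mul_inv]
    refine ⟨Additive.ofMul ⟨r, s, hrs, by rw [mul_comm, hrs]⟩, ?_⟩
    apply Additive.toMul.injective
    apply Subtype.ext
    apply Units.ext
    exact hr
  · rintro ⟨u, rfl⟩
    funext w
    show ordv w.1 (algebraMap (𝓞 F) F ((u.toMul : (𝓞 F)ˣ) : 𝓞 F)) = 0
    have h1 : w.1.valuation F (algebraMap (𝓞 F) F ((u.toMul : (𝓞 F)ˣ) : 𝓞 F)) = 1 := by
      rw [w.1.valuation_eq_one_iff_notMem]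
      intro h
      exact w.1.isPrime.ne_top (Ideal.eq_top_of_isUnit_mem _ h (u.toMul : (𝓞 F)ˣ).isUnit)
    unfold ordv
    rw [h1, WithZero.log_one, neg_zero]

theorem rank_range (hS : S.Finite) :
    finrank ℤ (LinearMap.range (phi S).toIntLinearMap) = S.ncard := by
  classical
  have : Fintype S := hS.fintype
  have hcard : S.ncard = Fintype.card S := by
    rw [Set.ncard_eq_toFinset_card', Set.toFinset_card]
  rw [hcard]
  apply le_antisymm
  · have h1 := Submodule.finrank_le (LinearMap.range (phi S).toIntLinearMap)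
    rwa [finrank_fintype_fun_eq_card] at h1
  · choose x hx1 hx2 using fun w : S ↦ exists_gen w.1
    have hu : ∀ w : S, x w ∈ S.unit F := by
      intro w v hv
      apply hx2
      rintro rfl
      exact hv w.2
    let y : S → LinearMap.range (phi S).toIntLinearMap := fun w ↦
      ⟨(phi S).toIntLinearMap (Additive.ofMul ⟨x w, hu w⟩), LinearMap.mem_range_self _ _⟩
    have hval : ∀ w v : S, (y w : S → ℤ) v = if v = w then ordv w.1 (x w : F) else 0 := by
      intro w v
      show ordv v.1 (x w : F) = _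
      by_cases h : v = w
      · rw [if_pos h, h]
      · rw [if_neg h]
        have h1 := hx2 w v.1 (fun h' ↦ h (Subtype.ext h'))
        unfold ordv
        rw [h1, WithZero.log_one, neg_zero]
    have hli : LinearIndependent ℤ y := by
      rw [Fintype.linearIndependent_iff]
      intro g hg w
      have h1 := congrArg (fun z : LinearMap.range (phi S).toIntLinearMap ↦ (z : S → ℤ) w) hg
      simp only [Submodule.coe_sum, Submodule.coe_smul, Finset.sum_apply, Pi.smul_apply, hval,
        smul_eq_mul, Submodule.coe_zero, Pi.zero_apply, mul_ite, mul_zero] at h1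
      rw [Finset.sum_ite_eq] at h1
      simp only [Finset.mem_univ, if_true] at h1
      exact (mul_eq_zero.1 h1).resolve_right (hx1 w)
    exact hli.fintype_card_le_finrank

end

theorem h_rnk : Pool.Agent.Helper51.REC.H_RNK := by
  intro F _ _ S hS
  classical
  have : Fintype S := hS.fintype
  have hker := ker_phi S
  have hfk : Module.Finite ℤ (LinearMap.ker (phi S).toIntLinearMap) := by
    rw [hker]
    infer_instance
  have hfq : Module.Finite ℤ (Additive (S.unit F) ⧸ LinearMap.ker (phi S).toIntLinearMap) :=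
    Module.Finite.equiv (phi S).toIntLinearMap.quotKerEquivRange.symm
  have hfin : Module.Finite ℤ (Additive (S.unit F)) :=
    Module.Finite.of_submodule_quotient (LinearMap.ker (phi S).toIntLinearMap)
  constructor
  · rw [GroupFG.iff_add_fg, ← Module.Finite.iff_addGroup_fg]
    exact hfin
  · have h1 := Submodule.finrank_quotient_add_finrank (LinearMap.ker (phi S).toIntLinearMap)
    rw [(phi S).toIntLinearMap.quotKerEquivRange.finrank_eq, rank_range S hS, hker,
      LinearMap.finrank_range_of_inj, Units.finrank_eq] at h1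
    · rw [← h1, add_comm]
    · intro x y h
      exact Additive.toMul.injective (psi_inj S h)

end Pool.Agent.Helper83.REC
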